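import Pool.Agent.Lib.MP_4e1a58_mp.Exhaust
import Pool.Agent.Lib.MP_4e1a58_mp.Inv

/-! Classification of quadratic trace Poisson brackets on three matrices (N = 3). -/

namespace Pool.Agent.Results.MP_4e1a58_mp.Classification

open Pool.Agent.Lib.MP_4e1a58_mp

/-- The normal forms `nf i` are nonzero admissible pairs, every nonzero admissible pair is
equivalent up to a nonzero factor to one of them, and two of them are equivalent only if the labels
agree or differ by the sign change of both parameters in a two-parameter family. -/
theorem result :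
    (∀ i : Label, Admissible (nf i) ∧ nf i ≠ 0) ∧
    (∀ X : Tn × Tn, Admissible X → X ≠ 0 → ∃ i : Label, Equivalent X (nf i)) ∧
    (∀ i j : Label, Equivalent (nf i) (nf j) ↔
      i = j ∨ ∃ (k : Fin 2) (κ ρ : ℂ), i = Label.two k κ ρ ∧ j = Label.two k (-κ) (-ρ)) :=
  ⟨fun i => ⟨adm_nf i, nf_ne_zero i⟩, fun _ hA h0 => (goal_all hA).resolve_left h0, equiv_iff⟩

end Pool.Agent.Results.MP_4e1a58_mp.Classification
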